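import Pool.Agent.R663.GA.FinG

/-!
MP_6a3f1a_al (Alperin's weight conjecture in the alternating-sum form of Knörr and Robinson).

Blockwise alternating sums over chains of `p`-subgroups, with the characters counted according to
their fields of values.

* `IsPChain`, `chainStabilizer`, `alternatingSum` (Pool/Agent/Y63/KR/Defs.lean): `alternatingSum p G f`
  is `∑_c (-1)^|c| f(G_c)`, over representatives `c` of the classes of chains of nontrivial
  `p`-subgroups of `G`, the empty chain included; this is the sum of Q1 if `O_p(G) = 1`.
* `centralValue red χ f` (Pool/Agent/Y63/NV/Defs.lean) is the value at the class function (central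
  element) `f` of the reduction of the central character of `χ`; `red` is a reduction map from the
  algebraic integers to the algebraically closed field `F` of characteristic `p`.
* `numIrrInd red H B` (Pool/Agent/Y63/NV/Stm5.lean): the number of `χ ∈ Irr(H)` with `bl(χ)^G = B`.
* `numIrrIndFix`, `numIrrIndLE`, `numIrrIndLevel` (Pool/Agent/R663/GA/FinG.lean): the numbers of the
  `χ ∈ Irr(H)` with `bl(χ)^G = B` whose values are fixed by a given automorphism of `ℂ`, of level at
  most `a`, of level `a`; `IsLevelLE` is in Pool/Agent/R615/LV/Lev.lean.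
-/

set_option autoImplicit false

namespace Pool.Agent.Results.MP_6a3f1a_al.GaloisBlockwise

open Pool.Agent.Y63.NV
open Pool.Agent.Y63.KR (IsPChain chainStabilizer alternatingSum)
open Pool.Agent.R663.GA

/-- Let `G` be a finite group, `p` a prime and `B` a `p`-block of `G` (or any function).
1. If two automorphisms of the complex numbers agree on the roots of unity whose order divides the
`p'`-part of `|G|`, then the alternating sums over chains `σ` of the numbers of the `ϑ ∈ Irr(G_σ)`
with `bl(ϑ)^G = B` which are fixed by them are equal.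
2. For `a ≥ 1` (`a ≥ 3` if `p = 2`) the alternating sum of the numbers of the `ϑ ∈ Irr(G_σ)` with
`bl(ϑ)^G = B` of `p`-rationality level `a` vanishes.
3. For `a ≥ 0` (`a ≥ 2` if `p = 2`) the alternating sum of the numbers of the `ϑ ∈ Irr(G_σ)` with
`bl(ϑ)^G = B` of level at most `a` is `∑_σ (-1)^|σ| k(B_σ)`. -/
theorem result (p : ℕ) [Fact p.Prime] (F : Type) [Field F] [IsAlgClosed F] [CharP F p]
    (red : integralClosure ℤ ℂ →+* F) (G : Type) [Group G] [Finite G] (B : (G → F) → F) :
    (∀ τ τ' : ℂ ≃+* ℂ,
      (∀ z : ℂ, z ^ (Nat.card G / p ^ (Nat.card G).factorization p) = 1 → τ z = τ' z) →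
      alternatingSum p G (fun H => (numIrrIndFix red H B τ : ℤ)) =
        alternatingSum p G (fun H => (numIrrIndFix red H B τ' : ℤ))) ∧
    (∀ a : ℕ, 1 ≤ a → (p = 2 → 3 ≤ a) →
      alternatingSum p G (fun H => (numIrrIndLevel p a red H B : ℤ)) = 0) ∧
    (∀ a : ℕ, (p = 2 → 2 ≤ a) →
      alternatingSum p G (fun H => (numIrrIndLE p a red H B : ℤ)) =
        alternatingSum p G (fun H => (numIrrInd red H B : ℤ))) :=
  ⟨fun τ τ' h => fixInd_congr red B τ τ' h, fun a h1 h2 => sumInd_level red B a h1 h2,
    fun a h => sumInd_LE red B a h⟩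

end Pool.Agent.Results.MP_6a3f1a_al.GaloisBlockwise
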