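import Pool.Agent.R674.Ce.Bl5

/-!
MP_6a3f1a_al (Alperin's weight conjecture in the alternating-sum form of Knörr and Robinson).

Notation (`Pool/Agent/Y63/NV/{Defs,Stm5}.lean`, `Pool/Agent/Y63/KR/Defs.lean`,
`Pool/Agent/R674/KB/Dz.lean`, `Pool/Agent/R674/Ce/{Bl5,Mob,Congr}.lean`). The prime is `p`.
* `F` is algebraically closed of characteristic `p`, `red` a reduction map from the algebraic
  integers to `F`; `centralValue red χ f` is the value of the reduction of the central character of
  `χ` at the class function (central element of the group algebra) `f`; a block `B` of `Γ` is given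
  by its central character (`IsBlock B`);
* `delBlk p red B = ∑_σ (-1)^|σ| k(B_σ) - z(B)`, the sum over representatives of the classes of
  chains of nontrivial `p`-subgroups (the empty chain included), `k(B_σ)` the number of the
  irreducible characters of `Γ_σ` in blocks inducing `B`, `z(B)` the number of those of defect zero
  in `B`;
* `InZ G w`: `w` is a class function on `Γ` which vanishes outside `G`;
* `delRel p red G B H`, for `H ≤ Γ`, is `∑_σ (-1)^|σ| k(H_σ) - z(H)`, the sum over representatives of
  the `H`-classes of chains of nontrivial `p`-subgroups of `H`, where `k(H_σ)` (`z(H)`) is the number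
  of the irreducible characters `ϑ` of `H_σ` (those of defect zero of `H`) with
  `centralValue red ϑ w = B w` (`w` restricted) for all `w` with `InZ G w`;
* `KRQ p red H`: for every block `B` of `H` with nontrivial defect groups (that is, containing no
  character of defect zero), `∑_σ (-1)^|σ| k(B_σ) = 0`; for `O_p(H) = 1` this is Q1 for `H`;
* `IsElAb p R`: `R` is an elementary abelian `p`-group; `mob p R = (-1)^r p^(r(r-1)/2)` for
  `|R| = p^r`; `G ⊓ Subgroup.centralizer R` is `C_G(R)`.
-/

open scoped Classical

namespace Pool.Agent.Results.MP_6a3f1a_al.MobiusFormulaBlockwise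

open Pool.Agent.Y63.NV (IsBlock)
open Pool.Agent.R674.KB (KRQ)
open Pool.Agent.R674.Ce

/-- Let `G` be a normal subgroup of the finite group `Γ` with `Γ/G` a `p`-group.
1. For every block `B` of `Γ`,
`|Γ| δ(B) = ∑_R (-1)^r p^(r(r-1)/2) |C_G(R)| δ_B(C_G(R))`, the sum over the elementary abelian
`p`-subgroups `R` of `Γ` with `R ∩ G = 1`, `|R| = p^r` (`R = 1` included); here
`δ(B) = ∑_σ (-1)^|σ| k(B_σ) - z(B)`, and `δ_B(C_G(R))` is the same difference for the group `C_G(R)`
and its characters belonging to `B`.
2. If for all these `R` with `O_p(C_G(R)) = 1` the identities `∑_σ (-1)^|σ| k(b_σ) = 0` hold for all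
blocks `b` of `C_G(R)` with nontrivial defect groups, then they hold for all blocks of `Γ` with
nontrivial defect groups. -/
theorem result (p : ℕ) [Fact p.Prime] (F : Type) [Field F] [IsAlgClosed F] [CharP F p]
    (red : integralClosure ℤ ℂ →+* F) (Γ : Type) [Group Γ] [Finite Γ] (G : Subgroup Γ) [G.Normal]
    (hp : IsPGroup p (Γ ⧸ G)) :
    (∀ B : (Γ → F) → F, IsBlock B →
      (Nat.card Γ : ℤ) * delBlk p red B = ∑ᶠ R : Subgroup Γ, if IsElAb p R ∧ G ⊓ R = ⊥ then
        mob p R * ((Nat.card ↥(G ⊓ Subgroup.centralizer (R : Set Γ)) : ℤ) *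
          delRel p red G B (G ⊓ Subgroup.centralizer (R : Set Γ))) else 0) ∧
    ((∀ R : Subgroup Γ, IsElAb p R → G ⊓ R = ⊥ →
      (∀ U : Subgroup ↥(G ⊓ Subgroup.centralizer (R : Set Γ)), U.Normal → IsPGroup p U → U = ⊥) →
      KRQ p red ↥(G ⊓ Subgroup.centralizer (R : Set Γ))) → KRQ p red Γ) :=
  ⟨fun _ hB => delBlk_formula red hp hB, fun h => krq_ext red Γ G hp h⟩

end Pool.Agent.Results.MP_6a3f1a_al.MobiusFormulaBlockwise
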