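import Pool.Agent.R674.KB.Equiv

/-!
MP_6a3f1a_al (Alperin's weight conjecture in the alternating-sum form of Knörr and Robinson).

Notation (all definitions are in `Pool/Agent/Y63/NV/{Defs,Stm5,Main,Free2,Bawc}.lean`,
`Pool/Agent/Y63/KR/Defs.lean` and `Pool/Agent/R674/KB/Dz.lean`):
* blocks are given by their central characters, homomorphisms `B` from the centre of `F[G]` to the
  algebraically closed field `F` of characteristic `p` (`IsBlock`); `red` is a reduction map from
  the algebraic integers to `F`; `centralValue red χ` is the reduction of the central character of
  the irreducible complex character `χ`, that is, the block of `χ`;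
* `numIrrInd red H B` is the number of `ϑ ∈ Irr(H)` with `bl(ϑ)^G = B`;
* `KRQ p red G`: for every block `B` of `G` with nontrivial defect groups (that is, containing no
  character of defect zero), `∑_σ (-1)^|σ| k(B_σ) = 0`, the sum over the classes of chains of
  nontrivial `p`-subgroups (the empty chain included); this is the identity of Q1 if `O_p(G) = 1`;
* `BAWC p red G`: the blockwise Alperin weight conjecture for `G`;
* `Reduced p H`: `H` has no normal subgroup of index `p` and no nontrivial normal `p`-subgroup;
* `Closed p X`: the class `X` of groups is closed under isomorphisms, subgroups and quotients by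
  normal `p`-subgroups.
-/

open scoped Classical

namespace Pool.Agent.Results.MP_6a3f1a_al.PExtensionsBlockwise

open Pool.Agent.Y63.NV
open Pool.Agent.R674.KB (KRQ tfae_main)

/-- Let `X` be a class of groups closed under isomorphisms, subgroups and quotients by normal
`p`-subgroups. The alternating sum identities for all blocks with nontrivial defect groups of all
finite groups in `X` without normal subgroups of index `p` and without nontrivial normal
`p`-subgroups imply the alternating sum identities for all blocks with nontrivial defect groups of
all finite groups `Γ` which have a normal subgroup `G` in `X` with `Γ/G` a `p`-group; and they are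
equivalent to the blockwise weight conjecture for the former and for the latter groups. -/
theorem result (p : ℕ) [Fact p.Prime] (F : Type) [Field F] [IsAlgClosed F] [CharP F p]
    (red : integralClosure ℤ ℂ →+* F) (X : ∀ (H : Type) [Group H], Prop) (hX : Closed p X) :
    List.TFAE [
      ∀ (H : Type) [Group H] [Finite H], X H → Reduced p H → KRQ p red H,
      ∀ (H : Type) [Group H] [Finite H], X H → Reduced p H → BAWC p red H,
      ∀ (Γ : Type) [Group Γ] [Finite Γ] (G : Subgroup Γ) [G.Normal], X G → IsPGroup p (Γ ⧸ G) →
        KRQ p red Γ,
      ∀ (Γ : Type) [Group Γ] [Finite Γ] (G : Subgroup Γ) [G.Normal], X G → IsPGroup p (Γ ⧸ G) →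
        BAWC p red Γ] :=
  tfae_main red X hX

end Pool.Agent.Results.MP_6a3f1a_al.PExtensionsBlockwise
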